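import Mathlib
import Pool.Agent.H12.GHCorr

/-! Three four-point spaces with no relation whose projections are all optimal. -/

open Set Metric Pool.Agent.H12.GHCorr

namespace Pool.Agent.Results.MP_c3dba2_gt.NotC

def D : Fin 3 → Fin 4 → Fin 4 → ℕ :=
  ![![![0, 10, 12, 11], ![10, 0, 10, 10], ![12, 10, 0, 12], ![11, 10, 12, 0]],
    ![![0, 12, 10, 12], ![12, 0, 11, 12], ![10, 11, 0, 11], ![12, 12, 11, 0]],
    ![![0, 10, 11, 11], ![10, 0, 12, 10], ![11, 12, 0, 12], ![11, 10, 12, 0]]]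

def P (_ : Fin 3) : Type := Fin 4

instance (k : Fin 3) : Fintype (P k) := inferInstanceAs (Fintype (Fin 4))
instance (k : Fin 3) : Nonempty (P k) := inferInstanceAs (Nonempty (Fin 4))

lemma D_self : ∀ k i, D k i i = 0 := by decide
lemma D_comm : ∀ k i j, D k i j = D k j i := by decide
lemma D_tri : ∀ k i j l, D k i l ≤ D k i j + D k j l := by decide
lemma D_sep : ∀ k i j, D k i j < 2 → i = j := by decide

instance (k : Fin 3) : MetricSpace (P k) where
  dist i j := (D k i j : ℝ)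
  dist_self i := by simp [D_self]
  dist_comm i j := by simp only [D_comm k i j]
  dist_triangle i j l := by exact_mod_cast D_tri k i j l
  eq_of_dist_eq_zero := by
    intro i j h
    have : D k i j = 0 := by exact_mod_cast h
    exact D_sep k i j (by omega)

lemma dist_eq (k : Fin 3) (i j : P k) : dist i j = (D k i j : ℝ) := rfl

def Good (k l : Fin 3) (f : Fin 4 → Fin 4) : Prop :=
  ∀ i j, D k i j ≤ D l (f i) (f j) + 1 ∧ D l (f i) (f j) ≤ D k i j + 1

instance (k l : Fin 3) (f : Fin 4 → Fin 4) : Decidable (Good k l f) := by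
  unfold Good; infer_instance

lemma opt_le (k l : Fin 3) (f : Fin 4 → Fin 4) (hf : Good k l f) (hs : Function.Surjective f)
    {R : Set (P k × P l)} (hR : Optimal R) {p q : P k × P l} (hp : p ∈ R) (hq : q ∈ R) :
    D k p.1 q.1 ≤ D l p.2 q.2 + 1 ∧ D l p.2 q.2 ≤ D k p.1 q.1 + 1 := by
  have h1 : IsCorr {z : P k × P l | z.2 = f z.1} :=
    ⟨fun x => ⟨f x, rfl⟩, fun y => by
      obtain ⟨x, hx⟩ := hs y
      exact ⟨x, hx.symm⟩⟩
  have h2 : dis {z : P k × P l | z.2 = f z.1} ≤ 1 := by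
    apply dis_le zero_le_one
    rintro ⟨x, _⟩ (rfl : _ = f x) ⟨y, _⟩ (rfl : _ = f y)
    have h := hf x y
    have h1 : (D k x y : ℝ) ≤ D l (f x) (f y) + 1 := by exact_mod_cast h.1
    have h2 : (D l (f x) (f y) : ℝ) ≤ D k x y + 1 := by exact_mod_cast h.2
    rw [dist_eq, dist_eq, abs_le]
    constructor <;> linarith
  have h3 := (le_dis hp hq).trans ((hR.le h1).trans h2)
  rw [dist_eq, dist_eq, abs_le] at h3
  constructor
  · have : (D k p.1 q.1 : ℝ) ≤ D l p.2 q.2 + 1 := by linarith [h3.2]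
    exact_mod_cast this
  · have : (D l p.2 q.2 : ℝ) ≤ D k p.1 q.1 + 1 := by linarith [h3.1]
    exact_mod_cast this

lemma cls2 : ∀ h : Fin 4 → Fin 4, Good 2 0 h → h = ![1, 0, 2, 3] ∨ h = ![1, 3, 2, 0] := by
  decide +kernel

lemma cls1 : ∀ g : Fin 4 → Fin 4, Good 1 2 g →
    g = ![0, 2, 1, 3] ∨ g = ![0, 3, 1, 2] ∨ g = ![3, 0, 1, 2] ∨ g = ![3, 2, 1, 0] := by
  decide +kernel

lemma cls0 : ∀ f : Fin 4 → Fin 4, Good 0 1 f →
    f = ![0, 2, 1, 3] ∨ f = ![0, 2, 3, 1] ∨ f = ![1, 2, 0, 3] ∨ f = ![1, 2, 3, 0] ∨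
      f = ![3, 2, 0, 1] ∨ f = ![3, 2, 1, 0] := by
  decide +kernel

lemma get_map (R : Set (∀ i, P i)) (k l : Fin 3) (f₀ : Fin 4 → Fin 4) (hf : Good k l f₀)
    (hs : Function.Surjective f₀) (hR : Optimal (proj R k l)) :
    ∃ f : Fin 4 → Fin 4, Good k l f ∧ ∀ x ∈ R, f (x k) = x l := by
  choose f hf' using hR.1.1
  refine ⟨f, fun i j => opt_le k l f₀ hf hs hR (hf' i) (hf' j), fun x hx => ?_⟩
  have := (opt_le k l f₀ hf hs hR (hf' (x k)) (q := (x k, x l)) ⟨x, hx, rfl⟩).2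
  simp only [D_self] at this
  exact D_sep l _ _ (by omega)

theorem result : ¬ ∀ (X : Fin 3 → Type) [∀ i, MetricSpace (X i)] [∀ i, CompactSpace (X i)]
    [∀ i, Nonempty (X i)], ∃ R : Set (∀ i, X i), ∀ i j, Optimal (proj R i j) := by
  intro hC
  obtain ⟨R, hR⟩ := hC P
  obtain ⟨f, hf, df⟩ := get_map R 0 1 ![0, 2, 1, 3] (by decide) (by decide) (hR 0 1)
  obtain ⟨g, hg, dg⟩ := get_map R 1 2 ![0, 2, 1, 3] (by decide) (by decide) (hR 1 2)
  obtain ⟨h, hh, dh⟩ := get_map R 2 0 ![1, 0, 2, 3] (by decide) (by decide) (hR 2 0)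
  have key : ∀ i : Fin 4, i = h (g (f i)) := by
    intro i
    obtain ⟨y, x, hx, hxy⟩ := (hR 0 1).1.1 i
    have e : x 0 = i := congrArg Prod.fst hxy
    rw [← e, df x hx, dg x hx, dh x hx]
  revert key
  rcases cls0 f hf with rfl | rfl | rfl | rfl | rfl | rfl <;>
    rcases cls1 g hg with rfl | rfl | rfl | rfl <;>
    rcases cls2 h hh with rfl | rfl <;> decide

end Pool.Agent.Results.MP_c3dba2_gt.NotC
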