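import Mathlib
import Pool.Agent.H12.GHCorr

/-! The three subsets {0,10,30}, {0,8,28}, {0,10,28} of the line. -/

open Set Metric Pool.Agent.H12.GHCorr

namespace Pool.Agent.Results.MP_c3dba2_gt.Pointwise

def D : Fin 3 → Fin 3 → Fin 3 → ℕ :=
  ![![![0, 10, 30], ![10, 0, 20], ![30, 20, 0]],
    ![![0, 8, 28], ![8, 0, 20], ![28, 20, 0]],
    ![![0, 10, 28], ![10, 0, 18], ![28, 18, 0]]]

def P (_ : Fin 3) : Type := Fin 3

instance (k : Fin 3) : Fintype (P k) := inferInstanceAs (Fintype (Fin 3))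
instance (k : Fin 3) : Nonempty (P k) := inferInstanceAs (Nonempty (Fin 3))

lemma D_self : ∀ k i, D k i i = 0 := by decide
lemma D_comm : ∀ k i j, D k i j = D k j i := by decide
lemma D_tri : ∀ k i j l, D k i l ≤ D k i j + D k j l := by decide
lemma D_sep : ∀ k i j, D k i j < 2 → i = j := by decide
lemma D_close : ∀ k l i j, D k i j ≤ D l i j + 2 := by decide
lemma D_far : ∀ (k l : Fin 3) (f : Fin 3 → Fin 3),
    (∀ i j, D k i j < D l (f i) (f j) + 2 ∧ D l (f i) (f j) < D k i j + 2) → k = l := by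
  decide +kernel
lemma D_id : ∀ (k l : Fin 3) (f : Fin 3 → Fin 3),
    (∀ i j, D k i j < D l (f i) (f j) + 3 ∧ D l (f i) (f j) < D k i j + 3) → ∀ i, f i = i := by
  decide +kernel

instance (k : Fin 3) : MetricSpace (P k) where
  dist i j := (D k i j : ℝ)
  dist_self i := by simp [D_self]
  dist_comm i j := by simp only [D_comm k i j]
  dist_triangle i j l := by exact_mod_cast D_tri k i j l
  eq_of_dist_eq_zero := by
    intro i j h
    have : D k i j = 0 := by exact_mod_cast h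
    exact D_sep k i j (by omega)

lemma dist_eq (k : Fin 3) (i j : P k) : dist i j = (D k i j : ℝ) := rfl

def R₀ : Set (∀ i, P i) := range fun (a : Fin 3) (_ : Fin 3) => a

lemma corr (k l : Fin 3) : IsCorr (proj R₀ k l) :=
  ⟨fun x => ⟨x, _, ⟨x, rfl⟩, rfl⟩, fun y => ⟨y, _, ⟨y, rfl⟩, rfl⟩⟩

lemma dis_two (k l : Fin 3) : dis (proj R₀ k l) ≤ 2 := by
  apply dis_le (by norm_num)
  rintro _ ⟨_, ⟨x, rfl⟩, rfl⟩ _ ⟨_, ⟨y, rfl⟩, rfl⟩
  have h1 : (D k x y : ℝ) ≤ D l x y + 2 := by exact_mod_cast D_close k l x y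
  have h2 : (D l x y : ℝ) ≤ D k x y + 2 := by exact_mod_cast D_close l k x y
  rw [dist_eq, dist_eq, abs_le]
  constructor <;> linarith

lemma opt (k l : Fin 3) : Optimal (proj R₀ k l) := by
  apply optimal_of (corr k l)
  intro S hS
  by_cases hkl : k = l
  · subst hkl
    refine le_trans (dis_le le_rfl ?_) (dis_nonneg S)
    rintro _ ⟨_, ⟨x, rfl⟩, rfl⟩ _ ⟨_, ⟨y, rfl⟩, rfl⟩
    simp
  · refine (dis_two k l).trans (le_of_not_gt fun h => hkl ?_)
    choose f hf using hS.1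
    apply D_far k l f
    intro i j
    have h3 := (le_dis (hf i) (hf j)).trans_lt h
    rw [dist_eq, dist_eq, abs_lt] at h3
    constructor
    · have : (D k i j : ℝ) < D l (f i) (f j) + 2 := by linarith [h3.2]
      exact_mod_cast this
    · have : (D l (f i) (f j) : ℝ) < D k i j + 2 := by linarith [h3.1]
      exact_mod_cast this

lemma close {Z : Type} [MetricSpace Z] (k l : Fin 3) (φ : P k → Z) (ψ : P l → Z)
    (hφ : Isometry φ) (hψ : Isometry ψ) (h : hausdorffDist (range φ) (range ψ) = dGH (P k) (P l)) :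
    ∀ i : Fin 3, dist (φ i) (ψ i) < 5 / 4 := by
  have h0 : hausdorffDist (range φ) (range ψ) ≤ 1 := by
    have := dGH_le (corr k l)
    have := dis_two k l
    linarith
  have hfin : hausdorffEDist (range φ) (range ψ) ≠ ⊤ :=
    hausdorffEDist_ne_top_of_nonempty_of_bounded (range_nonempty _) (range_nonempty _)
      (finite_range φ).isBounded (finite_range ψ).isBounded
  have h1 : ∀ i : P k, ∃ j : P l, dist (φ i) (ψ j) < 5 / 4 := by
    intro i
    obtain ⟨_, ⟨j, rfl⟩, hj⟩ := exists_dist_lt_of_hausdorffDist_lt (mem_range_self i)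
      (show hausdorffDist (range φ) (range ψ) < 5 / 4 by linarith) hfin
    exact ⟨j, hj⟩
  choose f hf using h1
  have := D_id k l f fun i j => by
    have e1 : dist (φ i) (φ j) = D k i j := hφ.dist_eq i j
    have e2 : dist (ψ (f i)) (ψ (f j)) = D l (f i) (f j) := hψ.dist_eq _ _
    have t1 := dist_triangle4 (φ i) (ψ (f i)) (ψ (f j)) (φ j)
    have t2 := dist_triangle4 (ψ (f i)) (φ i) (φ j) (ψ (f j))
    have a1 := hf i
    have a2 := hf j
    rw [dist_comm (ψ (f j))] at t1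
    rw [dist_comm (ψ (f i)) (φ i)] at t2
    have b1 : (D k i j : ℝ) < (D l (f i) (f j) + 3 : ℕ) := by push_cast; linarith
    have b2 : (D l (f i) (f j) : ℝ) < (D k i j + 3 : ℕ) := by push_cast; linarith
    exact ⟨Nat.cast_lt.mp b1, Nat.cast_lt.mp b2⟩
  intro i
  have h2 := hf i
  rwa [this i] at h2

theorem result : ∃ (X : Fin 3 → Type) (_ : ∀ i, MetricSpace (X i)) (_ : ∀ i, CompactSpace (X i))
    (_ : ∀ i, Nonempty (X i)), (∃ R : Set (∀ i, X i), ∀ i j, Optimal (proj R i j)) ∧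
    ∀ (Z : Type) [MetricSpace Z] (φ : ∀ i, X i → Z), (∀ i, Isometry (φ i)) →
      ¬ ∀ i j, hausdorffDist (range (φ i)) (range (φ j)) = dGH (X i) (X j) := by
  refine ⟨P, inferInstance, inferInstance, inferInstance, ⟨R₀, opt⟩, ?_⟩
  intro Z _ φ hφ h
  have a1 := close 0 1 _ _ (hφ 0) (hφ 1) (h 0 1) 0
  have a2 := close 1 2 _ _ (hφ 1) (hφ 2) (h 1 2) 1
  have a3 := close 2 0 _ _ (hφ 2) (hφ 0) (h 2 0) 2
  have e0 : dist (φ 0 (0 : Fin 3)) (φ 0 (2 : Fin 3)) = (30 : ℕ) := (hφ 0).dist_eq _ _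
  have e1 : dist (φ 1 (0 : Fin 3)) (φ 1 (1 : Fin 3)) = (8 : ℕ) := (hφ 1).dist_eq _ _
  have e2 : dist (φ 2 (1 : Fin 3)) (φ 2 (2 : Fin 3)) = (18 : ℕ) := (hφ 2).dist_eq _ _
  have t1 := dist_triangle4 (φ 0 (0 : Fin 3)) (φ 1 (0 : Fin 3)) (φ 1 (1 : Fin 3))
    (φ 2 (1 : Fin 3))
  have t2 := dist_triangle4 (φ 0 (0 : Fin 3)) (φ 2 (1 : Fin 3)) (φ 2 (2 : Fin 3))
    (φ 0 (2 : Fin 3))
  push_cast at e0 e1 e2
  linarith

end Pool.Agent.Results.MP_c3dba2_gt.Pointwise
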